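import Pool.Agent.Helper42.TG.Defs
import Pool.Agent.Helper14.TG.LNK
import Pool.Agent.Helper19.TN.EndB
import Pool.Agent.Helper24.SGB.ELAW

/-!
# Project TG (MP_a41896_nt), packet SLW: slow sequences of points are the constant points
-/

set_option autoImplicit false

namespace Pool.Agent.Helper26.TG

open WeierstrassCurve Height
open Pool.Agent.Helper29.BL Pool.Agent.Helper92.Ru Pool.Agent.Helper42.SG
open Pool.Agent.Helper60.HC (Lo nrs xs)
open Pool.Agent.Helper60.T3 (WL zd IP)
open Pool.Agent.Helper42.TG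
open Pool.Agent.Helper14.TG (sl ev_const slow_range t_LNK)

theorem t_SLW : Pool.Agent.Helper42.TG.SLW := by
  intro K _ _ _ U T hT κ L _ _ _ _ _ _ _ hκ hL hKL W hW H c₀ hH φ hφ s
  obtain ⟨h0, hx, hp⟩ := hφ s
  have hnear : ∀ k, |H (s k) - logHeight₁ (xc (s k))| ≤ c₀ := fun k => hH.near (s k)
  have hsl : s ∈ slowP U T H ↔ sl U T (fun k => xc (s k)) := by
    constructor
    · intro h η hη
      have h2 : 0 < η / 2 := by positivity
      filter_upwards [h _ h2, ev_const hT c₀ h2] with k h1 h3
      have := abs_le.1 (hnear k)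
      linarith [this.1]
    · intro h η hη
      have h2 : 0 < η / 2 := by positivity
      filter_upwards [h _ h2, ev_const hT c₀ h2] with k h1 h3
      have := abs_le.1 (hnear k)
      linarith [this.2]
  rw [hsl]
  constructor
  · rintro (h | ⟨h1, -⟩)
    · intro η hη
      filter_upwards [h0.1 h, ev_const hT (logHeight₁ (0 : K)) hη] with k h1 h3
      rw [h1]
      exact h3
    · rw [hx] at h1
      obtain ⟨c, hc⟩ := h1
      have hnot : ¬ AlgebraicIndependent κ
          (fun _ : Fin 1 => gl U L (fun k => xc (s k))) := by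
        intro hind
        have h2 := hind.transcendental 0
        apply h2
        rw [← hc]
        exact isAlgebraic_algebraMap c
      rw [t_LNK K U T hT κ L hκ hL hKL (Fin 1) (fun _ k => xc (s k))] at hnot
      obtain ⟨D, hD⟩ := not_forall.1 hnot
      have hD' : ∀ η : ℝ, 0 < η → ∀ᶠ k in (U : Filter ℕ),
          Lo Finset.univ D (η * T k) (fun _ : Fin 1 => xc (s k)) := by
        intro η hη
        by_contra h1
        exact hD ⟨η, hη, Ultrafilter.eventually_not.2 h1⟩
      obtain ⟨C, -, hC⟩ := Pool.Agent.Helper19.TN.root K (Fin 1) D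
      intro η hη
      have h2 : 0 < η / 2 := by positivity
      filter_upwards [hD' _ h2, ev_const hT C h2] with k h3 h4
      have h5 := hC 0 (η / 2 * T k) (fun _ : Fin 1 => xc (s k)) h3
      show logHeight₁ (xc (s k)) ≤ η * T k
      have h6 : logHeight₁ (xc (s k)) ≤ η / 2 * T k + C := h5
      linarith
  · intro h
    by_cases hs : ∀ᶠ k in (U : Filter ℕ), s k = 0
    · left
      exact h0.2 hs
    · right
      have hne : φ s ≠ 0 := fun h1 => hs (h0.1 h1)
      have hsq := Pool.Agent.Helper24.SGB.ps_sq (φ s) hne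
      obtain ⟨c, hc⟩ := slow_range hT hKL h
      have hcst : ∀ a : K, ∃ d : κ, algebraMap κ L d = algebraMap K L a := by
        intro a
        obtain ⟨d, hd⟩ := slow_range hT hKL (Pool.Agent.Helper14.TG.sl_const hT a)
        exact ⟨d, hd.trans (hKL.cst a).symm⟩
      obtain ⟨d₂, e₂⟩ := hcst W.b₂
      obtain ⟨d₄, e₄⟩ := hcst W.b₄
      obtain ⟨d₆, e₆⟩ := hcst W.b₆
      refine ⟨⟨c, ?_⟩, ?_⟩
      · rw [hx]
        exact hc
      · obtain ⟨z, hz⟩ := IsAlgClosed.exists_pow_nat_eq
          (4 * c ^ 3 + d₂ * c ^ 2 + 2 * d₄ * c + d₆) (n := 2) (by norm_num)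
        have h1 : (algebraMap κ L z) ^ 2 = ps (φ s) ^ 2 := by
          rw [hsq, ← map_pow, hz, hx, ← hc]
          simp only [Bf, WL, map_b₂, map_b₄, map_b₆, ← e₂, ← e₄, ← e₆]
          simp only [map_add, map_mul, map_pow, map_ofNat]
        rcases sq_eq_sq_iff_eq_or_eq_neg.1 h1 with h2 | h2
        · exact ⟨z, h2⟩
        · exact ⟨-z, by rw [map_neg, h2, neg_neg]⟩

end Pool.Agent.Helper26.TG
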